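import Pool.Agent.Helper29.CP.Base

/-!
MP_82cbb9_al, cover theorem, module CP-4 (helper66).
-/

set_option autoImplicit false

namespace Pool.Agent.CP

open Polynomial

section Sys
variable {k d c : ℕ} (S : Sys k d c) (τ : FreeGroup (Fin d) →* TT k)

/-- CP-4a -/
theorem Sys.D_anti {i j : ℕ} (h : i ≤ j) : S.D τ j ≤ S.D τ i := by
  intro l hl
  exact ⟨hl.1, Ideal.pow_le_pow_right h hl.2⟩

theorem cp4_mul_mem_pow {A : Type*} [Ring A] (J : Ideal A) [J.IsTwoSided] {i j : ℕ} {x y : A}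
    (hx : x ∈ J ^ i) (hy : y ∈ J ^ j) : x * y ∈ J ^ (i + j) := by
  rw [Ideal.IsTwoSided.pow_add]
  exact Ideal.mul_mem_mul hx hy

/-- CP-4b -/
theorem Sys.D_comm (i j : ℕ) : ⁅S.D τ i, S.D τ j⁆ ≤ S.D τ (i + j) := by
  rw [Subgroup.commutator_le]
  intro a ha b hb
  have hab := τ.ker.mul_mem ha.1 hb.1
  have haba := τ.ker.mul_mem hab (τ.ker.inv_mem ha.1)
  refine ⟨τ.ker.mul_mem haba (τ.ker.inv_mem hb.1), ?_⟩
  have h1 : S.u τ (a * b * a⁻¹ * b⁻¹) = S.u τ a * S.u τ b * S.u τ a⁻¹ * S.u τ b⁻¹ := by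
    rw [Sys.u_mul_ker S τ haba, Sys.u_mul_ker S τ hab,
      Sys.u_mul_ker S τ ha.1]
  have h2 : S.u τ b * S.u τ a * (S.u τ a⁻¹ * S.u τ b⁻¹) = 1 := by
    have e1 := (Sys.u_inv_ker S τ ha.1).1
    have e2 := (Sys.u_inv_ker S τ hb.1).1
    calc S.u τ b * S.u τ a * (S.u τ a⁻¹ * S.u τ b⁻¹)
        = S.u τ b * (S.u τ a * S.u τ a⁻¹) * S.u τ b⁻¹ := by noncomm_ring
      _ = 1 := by rw [e1, mul_one, e2]
  have h3 : S.u τ (a * b * a⁻¹ * b⁻¹) - 1 = ((S.u τ a - 1) * (S.u τ b - 1) - (S.u τ b - 1) * (S.u τ a - 1))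
      * (S.u τ a⁻¹ * S.u τ b⁻¹) := by
    rw [h1]
    conv_lhs => rw [← h2]
    noncomm_ring
  show S.u τ (a * b * a⁻¹ * b⁻¹) - 1 ∈ _
  rw [h3]
  refine Ideal.mul_mem_right _ _ (Ideal.sub_mem _ (cp4_mul_mem_pow _ ha.2 hb.2) ?_)
  rw [add_comm i j]
  exact cp4_mul_mem_pow _ hb.2 ha.2

/-- CP-4c -/
theorem Sys.gam_le_D (j : ℕ) : gam τ.ker j ≤ S.D τ (j + 1) := by
  have h0 : τ.ker ≤ S.D τ 1 := by
    intro l hl
    refine ⟨hl, ?_⟩
    rw [Submodule.pow_one]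
    exact S.u_sub_one_mem τ l
  induction j with
  | zero => exact h0
  | succ n ih =>
    show ⁅gam τ.ker n, τ.ker⁆ ≤ _
    exact (Subgroup.commutator_mono ih h0).trans (S.D_comm τ (n + 1) 1)

/-- `u a - 1` is congruent to `x` modulo `J ^ (i + 1)` -/
def cp4Cong (i : ℕ) (a : FreeGroup (Fin d)) (x : S.A) : Prop :=
  a ∈ S.D τ i ∧ S.u τ a - 1 - x ∈ S.J ^ (i + 1)

variable {S τ}

theorem cp4Cong_one (i : ℕ) : cp4Cong S τ i 1 0 := ⟨(S.D τ i).one_mem, by simp⟩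

theorem cp4Cong_mul {i : ℕ} (hi : 1 ≤ i) {a b : FreeGroup (Fin d)} {x y : S.A}
    (ha : cp4Cong S τ i a x) (hb : cp4Cong S τ i b y) : cp4Cong S τ i (a * b) (x + y) := by
  refine ⟨(S.D τ i).mul_mem ha.1 hb.1, ?_⟩
  have h : S.u τ (a * b) - 1 - (x + y) = (S.u τ a - 1) * (S.u τ b - 1)
      + (S.u τ a - 1 - x) + (S.u τ b - 1 - y) := by
    rw [Sys.u_mul_ker S τ ha.1.1]; noncomm_ring
  rw [h]
  refine Ideal.add_mem _ (Ideal.add_mem _ ?_ ha.2) hb.2
  exact Ideal.pow_le_pow_right (by omega) (cp4_mul_mem_pow _ ha.1.2 hb.1.2)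

theorem cp4Cong_inv {i : ℕ} (hi : 1 ≤ i) {a : FreeGroup (Fin d)} {x : S.A}
    (ha : cp4Cong S τ i a x) : cp4Cong S τ i a⁻¹ (-x) := by
  refine ⟨(S.D τ i).inv_mem ha.1, ?_⟩
  have h0 := (Sys.u_inv_ker S τ ha.1.1).1
  have h : S.u τ a⁻¹ - 1 - (-x) = -((S.u τ a - 1) * (S.u τ a⁻¹ - 1)) - (S.u τ a - 1 - x)
      + (S.u τ a * S.u τ a⁻¹ - 1) := by
    noncomm_ring
  rw [h, h0, sub_self, add_zero]
  refine Ideal.sub_mem _ ?_ ha.2
  refine (Ideal.neg_mem_iff _).2 ?_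
  exact Ideal.pow_le_pow_right (by omega)
    (cp4_mul_mem_pow _ ha.1.2 ((S.D τ i).inv_mem ha.1).2)

theorem cp4Cong_pow {i : ℕ} (hi : 1 ≤ i) {a : FreeGroup (Fin d)} {x : S.A}
    (ha : cp4Cong S τ i a x) (m : ℕ) : cp4Cong S τ i (a ^ m) (m • x) := by
  induction m with
  | zero => simpa using cp4Cong_one i
  | succ n ih =>
    rw [pow_succ, succ_nsmul]
    exact cp4Cong_mul hi ih ha

theorem cp4Cong_zpow {i : ℕ} (hi : 1 ≤ i) {a : FreeGroup (Fin d)} {x : S.A}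
    (ha : cp4Cong S τ i a x) (m : ℤ) : cp4Cong S τ i (a ^ m) (m • x) := by
  cases m with
  | ofNat n => simpa using cp4Cong_pow hi ha n
  | negSucc n =>
    rw [zpow_negSucc, negSucc_zsmul]
    exact cp4Cong_inv hi (cp4Cong_pow hi ha _)

theorem cp4Cong_conj {i : ℕ} (g : FreeGroup (Fin d)) {y : FreeGroup (Fin d)}
    (hy : y ∈ S.D τ i) : cp4Cong S τ i (g * y * g⁻¹) (S.act (τ g) (S.u τ y - 1)) := by
  refine ⟨(inferInstance : (S.D τ i).Normal).conj_mem _ hy g, ?_⟩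
  rw [Sys.u_conj S τ g hy.1]
  have h0 := S.u_inv τ g
  have hz : S.act (τ g) (S.u τ y - 1) ∈ S.J ^ i := S.actJ_pow _ _ hy.2
  have hα := S.u_sub_one_mem τ g
  have hβ : S.act (τ g) (S.u τ g⁻¹) - 1 ∈ S.J := by
    have := S.actJ (τ g) _ (S.u_sub_one_mem τ g⁻¹)
    rwa [map_sub, map_one] at this
  have h : S.u τ g * S.act (τ g) (S.u τ y) * S.act (τ g) (S.u τ g⁻¹) - 1
      - S.act (τ g) (S.u τ y - 1)
      = S.u τ g * (S.act (τ g) (S.u τ y - 1) * (S.act (τ g) (S.u τ g⁻¹) - 1))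
        + (S.u τ g - 1) * S.act (τ g) (S.u τ y - 1) := by
    have e : S.u τ g * S.act (τ g) (S.u τ y) * S.act (τ g) (S.u τ g⁻¹) - 1
        = S.u τ g * S.act (τ g) (S.u τ y - 1) * S.act (τ g) (S.u τ g⁻¹) := by
      rw [map_sub, map_one, mul_sub, sub_mul, mul_one, h0]
    rw [e]
    noncomm_ring
  rw [h]
  refine Ideal.add_mem _ (Ideal.mul_mem_left _ _ ?_) ?_
  · have := cp4_mul_mem_pow S.J hz (j := 1) (by rw [Submodule.pow_one]; exact hβ)
    exact this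
  · have := cp4_mul_mem_pow S.J (i := 1) (by rw [Submodule.pow_one]; exact hα) hz
    rwa [add_comm] at this

theorem cp4Cong_list {i : ℕ} (hi : 1 ≤ i) (F : ℕ → FreeGroup (Fin d)) (X : ℕ → S.A)
    (h : ∀ n, cp4Cong S τ i (F n) (X n)) (l : List ℕ) :
    cp4Cong S τ i (l.map F).prod (l.map X).sum := by
  induction l with
  | nil => simpa using cp4Cong_one i
  | cons n l ih =>
    rw [List.map_cons, List.map_cons, List.prod_cons, List.sum_cons]
    exact cp4Cong_mul hi (h n) ih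

variable (S τ)

/-- CP-4d -/
theorem Sys.D_pw {i : ℕ} (hi : 1 ≤ i) {f y : FreeGroup (Fin d)} (hy : y ∈ S.D τ i) (p : ℤ[X])
    (hp : aeval ((S.act (τ f)).toLinearMap : Module.End ℚ S.A) p = 0) :
    pw f y p ∈ S.D τ (i + 1) := by
  have h1 : cp4Cong S τ i (pw f y p) ((List.range (p.natDegree + 1)).map
      (fun n => p.coeff n • S.act (τ (f ^ n)) (S.u τ y - 1))).sum :=
    cp4Cong_list hi _ _ (fun n => cp4Cong_zpow hi (cp4Cong_conj (f ^ n) hy) _) _
  have h2 : ((List.range (p.natDegree + 1)).map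
      (fun n => p.coeff n • S.act (τ (f ^ n)) (S.u τ y - 1))).sum = 0 := by
    have h3 := LinearMap.congr_fun hp (S.u τ y - 1)
    rw [aeval_eq_sum_range, LinearMap.sum_apply, LinearMap.zero_apply] at h3
    rw [← h3, ← List.sum_toFinset _ (List.nodup_range), List.toFinset_range]
    refine Finset.sum_congr rfl fun n hn => ?_
    clear hn
    rw [LinearMap.smul_apply]
    congr 1
    induction n with
    | zero => simp
    | succ m ih =>
      rw [pow_succ', pow_succ', map_mul, map_mul, Module.End.mul_apply, ← ih]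
      rfl
  rw [h2] at h1
  refine ⟨h1.1.1, ?_⟩
  have := h1.2
  rwa [sub_zero] at this

/-- CP-4e -/
theorem exists_primitive_annihilator {V : Type*} [AddCommGroup V] [Module ℚ V]
    [FiniteDimensional ℚ V] (T : Module.End ℚ V) : ∃ p : ℤ[X], p.IsPrimitive ∧ aeval T p = 0 := by
  have h0 : minpoly ℚ T ≠ 0 := minpoly.ne_zero (Algebra.IsIntegral.isIntegral T)
  obtain ⟨b, hbM, hb⟩ := IsLocalization.integerNormalization_spec (nonZeroDivisors ℤ)
    (minpoly ℚ T)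
  set P := IsLocalization.integerNormalization (nonZeroDivisors ℤ) (minpoly ℚ T) with hP
  have hP1 : aeval T P = 0 := by
    rw [← aeval_map_algebraMap ℚ T P, hb, map_zsmul, minpoly.aeval, smul_zero]
  have hP0 : P ≠ 0 := by
    intro h
    rw [h, Polynomial.map_zero] at hb
    have : (b : ℤ) • minpoly ℚ T = 0 := hb.symm
    rcases smul_eq_zero.1 this with h1 | h1
    · exact nonZeroDivisors.ne_zero hbM h1
    · exact h0 h1
  refine ⟨P.primPart, P.isPrimitive_primPart, ?_⟩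
  have h1 : (P.content : ℤ) • aeval T P.primPart = 0 := by
    rw [← map_smul, smul_eq_C_mul, ← P.eq_C_content_mul_primPart, hP1]
  ext v
  have h2 := LinearMap.congr_fun h1 v
  rw [LinearMap.smul_apply, LinearMap.zero_apply, ← Int.cast_smul_eq_zsmul ℚ] at h2
  rcases smul_eq_zero.1 h2 with h3 | h3
  · exact absurd (content_eq_zero_iff.1 (Int.cast_eq_zero.1 h3)) hP0
  · simpa using h3

/-- CP-4f -/
theorem Sys.exists_prod (S₁ S₂ : Sys k d c) :
    ∃ S : Sys k d c, ∀ τ, S.Ker τ = S₁.Ker τ ⊓ S₂.Ker τ := by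
  let J : Ideal (S₁.A × S₂.A) := Ideal.prod S₁.J S₂.J
  have hJ : ∀ x : S₁.A × S₂.A, x ∈ J ↔ x.1 ∈ S₁.J ∧ x.2 ∈ S₂.J := fun x => Iff.rfl
  have : J.IsTwoSided := ⟨fun b hx => ⟨Ideal.mul_mem_right _ _ hx.1, Ideal.mul_mem_right _ _ hx.2⟩⟩
  have hpow : ∀ n, ∀ x ∈ J ^ n, x.1 ∈ S₁.J ^ n ∧ x.2 ∈ S₂.J ^ n := by
    intro n
    induction n with
    | zero =>
      intro x _
      rw [Submodule.pow_zero, Submodule.pow_zero, Ideal.one_eq_top, Ideal.one_eq_top]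
      exact ⟨trivial, trivial⟩
    | succ n ih =>
      intro x hx
      rw [Ideal.IsTwoSided.pow_succ] at hx
      rw [Ideal.IsTwoSided.pow_succ, Ideal.IsTwoSided.pow_succ]
      refine Submodule.mul_induction_on hx ?_ ?_
      · intro a ha b hb
        have := ih b hb
        exact ⟨Ideal.mul_mem_mul ha.1 this.1, Ideal.mul_mem_mul ha.2 this.2⟩
      · intro a b ha hb
        exact ⟨Ideal.add_mem _ ha.1 hb.1, Ideal.add_mem _ ha.2 hb.2⟩
  let act : TT k →* ((S₁.A × S₂.A) ≃ₐ[ℚ] (S₁.A × S₂.A)) :=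
    { toFun := fun t => AlgEquiv.prodCongr (S₁.act t) (S₂.act t)
      map_one' := by
        ext x <;> simp
      map_mul' := by
        intro s t
        ext x <;> simp }
  let S : Sys k d c :=
    { A := S₁.A × S₂.A
      J := J
      nil := by
        rw [eq_bot_iff]
        intro x hx
        have := hpow _ x hx
        rw [S₁.nil, S₂.nil] at this
        exact Prod.ext this.1 this.2
      act := act
      actJ := fun t x hx => ⟨S₁.actJ t _ hx.1, S₂.actJ t _ hx.2⟩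
      gen := fun i => (S₁.gen i, S₂.gen i)
      genJ := fun i => ⟨S₁.genJ i, S₂.genJ i⟩ }
  refine ⟨S, fun τ => ?_⟩
  have hu : ∀ f, S.u τ f = (S₁.u τ f, S₂.u τ f) := by
    intro f
    induction f using FreeGroup.induction_on with
    | C1 => simp; rfl
    | of i => rw [Sys.u_of, Sys.u_of, Sys.u_of]; rfl
    | inv_of i _ =>
      have h1 := S.u_inv τ (FreeGroup.of i)
      have h2 := S₁.u_inv τ (FreeGroup.of i)
      have h3 := S₂.u_inv τ (FreeGroup.of i)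
      have h4 : S.act (τ (FreeGroup.of i)) (S.u τ (FreeGroup.of i)⁻¹)
          = S.act (τ (FreeGroup.of i)) (S₁.u τ (FreeGroup.of i)⁻¹, S₂.u τ (FreeGroup.of i)⁻¹) := by
        apply (S.isUnit_one_add i).mul_left_cancel
        rw [← Sys.u_of S τ, h1, Sys.u_of]
        refine Prod.ext ?_ ?_
        · rw [Sys.u_of] at h2; exact h2.symm
        · rw [Sys.u_of] at h3; exact h3.symm
      exact (S.act (τ (FreeGroup.of i))).injective h4
    | mul x y hx hy =>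
      rw [Sys.u_mul, Sys.u_mul, Sys.u_mul, hx, hy]
      rfl
  ext l
  rw [Subgroup.mem_inf, Sys.mem_Ker, Sys.mem_Ker, Sys.mem_Ker, hu]
  constructor
  · rintro ⟨h1, h2⟩
    exact ⟨⟨h1, congrArg Prod.fst h2⟩, ⟨h1, congrArg Prod.snd h2⟩⟩
  · rintro ⟨⟨h1, h2⟩, ⟨_, h3⟩⟩
    exact ⟨h1, Prod.ext h2 h3⟩

end Sys

end Pool.Agent.CP
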