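import Pool.Agent.Helper98.CP.RDefs

/-!
MP_82cbb9_al, Theorem A, module OR-3 (helper66): decidable linear algebra over the rationals with
variable lists.
-/

set_option autoImplicit false

namespace Pool.Agent.CP

open Stage Pool.Agent.CQ

section or3

theorem or3_pr_pi {α σ : Type*} [Primcodable α] [Primcodable σ] {n : ℕ} {f : α → Fin n → σ}
    (hf : ∀ i, Primrec (fun a => f a i)) : Primrec f := by
  have h1 : Primrec (fun a => List.Vector.ofFn fun i => f a i) :=
    Primrec.vector_ofFn (f := fun i a => f a i) hf
  have h2 : Primrec (@List.Vector.get σ n) := Primrec.vector_get'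
  exact (h2.comp h1).of_eq (fun a => by funext i; simp)

theorem or3_pr_app {α σ : Type*} [Primcodable α] [Primcodable σ] {n : ℕ} {f : α → Fin n → σ}
    (hf : Primrec f) (i : Fin n) : Primrec (fun a => f a i) :=
  Primrec.fin_app.comp hf (Primrec.const i)

theorem or3_pr_vadd {α : Type*} [Primcodable α] {n : ℕ} {f g : α → Fin n → ℚ}
    (hf : Primrec f) (hg : Primrec g) : Primrec (fun a => f a + g a) :=
  or3_pr_pi fun i => pr_qadd (or3_pr_app hf i) (or3_pr_app hg i)

theorem or3_pr_vsmul {α : Type*} [Primcodable α] {n : ℕ} {c : α → ℚ} {f : α → Fin n → ℚ}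
    (hc : Primrec c) (hf : Primrec f) : Primrec (fun a => c a • f a) :=
  or3_pr_pi fun i => pr_qmul hc (or3_pr_app hf i)

theorem or3_lq_eq {W : Type*} [AddCommGroup W] [Module ℚ W] (vs : List W) (e : List ℚ) :
    lq vs e = ∑ i ∈ Finset.range vs.length, (e.getD i 0) • (vs.getD i 0) := by
  induction vs generalizing e with
  | nil => simp [lq]
  | cons v vs ih =>
    cases e with
    | nil => simp [lq]
    | cons a e =>
      rw [lq, ih, List.length_cons, Finset.sum_range_succ']
      simp [add_comm]

theorem or3_lc_eq {W : Type*} [AddCommGroup W] (vs : List W) (e : List ℤ) :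
    lc vs e = ∑ i ∈ Finset.range vs.length, (e.getD i 0) • (vs.getD i 0) := by
  induction vs generalizing e with
  | nil => simp [lc]
  | cons v vs ih =>
    cases e with
    | nil => simp [lc]
    | cons a e =>
      rw [lc, ih, List.length_cons, Finset.sum_range_succ']
      simp [add_comm]

theorem or3_pr_lq {m : ℕ} : Primrec₂ (fun (vs : List (Fin m → ℚ)) (e : List ℚ) => lq vs e) := by
  have h : Primrec (fun p : List (Fin m → ℚ) × List ℚ =>
      Nat.rec (motive := fun _ => Fin m → ℚ) (0 : Fin m → ℚ)
        (fun i s => s + (p.2.getD i 0) • (p.1.getD i 0)) p.1.length) := by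
    refine Primrec.nat_rec' (f := fun p : List (Fin m → ℚ) × List ℚ => p.1.length)
      (g := fun _ => (0 : Fin m → ℚ))
      (h := fun (p : List (Fin m → ℚ) × List ℚ) (q : ℕ × (Fin m → ℚ)) =>
        q.2 + (p.2.getD q.1 0) • (p.1.getD q.1 0)) ?_ ?_ ?_
    · exact Primrec.list_length.comp Primrec.fst
    · exact Primrec.const _
    · refine or3_pr_vadd (Primrec.snd.comp Primrec.snd) (or3_pr_vsmul ?_ ?_)
      · exact (Primrec.list_getD 0).comp (Primrec.snd.comp Primrec.fst)
          (Primrec.fst.comp Primrec.snd)
      · exact (Primrec.list_getD 0).comp (Primrec.fst.comp Primrec.fst)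
          (Primrec.fst.comp Primrec.snd)
  refine h.of_eq (fun p => ?_)
  show _ = lq p.1 p.2
  rw [or3_lq_eq]
  induction p.1.length with
  | zero => simp
  | succ n ih => rw [Finset.sum_range_succ, ← ih]

theorem or3_pr_lc {m : ℕ} : Primrec₂ (fun (vs : List (Fin m → ℚ)) (e : List ℤ) => lc vs e) := by
  have h : Primrec (fun p : List (Fin m → ℚ) × List ℤ =>
      Nat.rec (motive := fun _ => Fin m → ℚ) (0 : Fin m → ℚ)
        (fun i s => s + ((p.2.getD i 0 : ℤ) : ℚ) • (p.1.getD i 0)) p.1.length) := by
    refine Primrec.nat_rec' (f := fun p : List (Fin m → ℚ) × List ℤ => p.1.length)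
      (g := fun _ => (0 : Fin m → ℚ))
      (h := fun (p : List (Fin m → ℚ) × List ℤ) (q : ℕ × (Fin m → ℚ)) =>
        q.2 + ((p.2.getD q.1 0 : ℤ) : ℚ) • (p.1.getD q.1 0)) ?_ ?_ ?_
    · exact Primrec.list_length.comp Primrec.fst
    · exact Primrec.const _
    · refine or3_pr_vadd (Primrec.snd.comp Primrec.snd) (or3_pr_vsmul ?_ ?_)
      · exact pr_ratCast ((Primrec.list_getD 0).comp (Primrec.snd.comp Primrec.fst)
          (Primrec.fst.comp Primrec.snd))
      · exact (Primrec.list_getD 0).comp (Primrec.fst.comp Primrec.fst)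
          (Primrec.fst.comp Primrec.snd)
  refine h.of_eq (fun p => ?_)
  show _ = lc p.1 p.2
  rw [or3_lc_eq]
  induction p.1.length with
  | zero => simp
  | succ n ih =>
    rw [Finset.sum_range_succ, ← ih, ← Int.cast_smul_eq_zsmul ℚ (p.2.getD n 0) (p.1.getD n 0)]

/-- membership in a fixed subspace is decidable -/
theorem cp_subspace {m : ℕ} (U : Submodule ℚ (Fin m → ℚ)) :
    ComputablePred (fun v : Fin m → ℚ => v ∈ U) := by
  have h := cp_linear (α := Fin m → ℚ) (K := (Fin m → ℚ) ⧸ U)
    (fun i : Fin m => U.mkQ (Pi.single i 1)) (q := fun i v => v i)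
    (fun i => (or3_pr_app Primrec.id i).to_comp)
  refine h.of_eq (fun v => ?_)
  have h1 : ∑ i, v i • U.mkQ (Pi.single i 1) = U.mkQ v := by
    rw [LinearMap.pi_apply_eq_sum_univ U.mkQ v]
    refine Finset.sum_congr rfl fun i _ => ?_
    congr 2
    funext j
    simp [Pi.single_apply, eq_comm]
  rw [h1, Submodule.mkQ_apply, Submodule.Quotient.mk_eq_zero]

theorem or3_mem_span_iff {W : Type*} [AddCommGroup W] [Module ℚ W] (l : List W) (z : W) :
    z ∈ Submodule.span ℚ {v | v ∈ l} ↔ ∃ q : List ℚ, q.length = l.length ∧ z = lq l q := by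
  induction l generalizing z with
  | nil =>
    have : {v : W | v ∈ ([] : List W)} = ∅ := by ext v; simp
    rw [this, Submodule.span_empty, Submodule.mem_bot]
    constructor
    · rintro rfl; exact ⟨[], rfl, rfl⟩
    · rintro ⟨q, _, rfl⟩; rfl
  | cons a l ih =>
    have : {v : W | v ∈ a :: l} = insert a {v | v ∈ l} := by ext v; simp
    rw [this, Submodule.mem_span_insert]
    constructor
    · rintro ⟨c, w, hw, rfl⟩
      obtain ⟨q, hq, rfl⟩ := (ih w).1 hw
      exact ⟨c :: q, by simp [hq], rfl⟩
    · rintro ⟨q, hq, rfl⟩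
      cases q with
      | nil => simp at hq
      | cons c q => exact ⟨c, lq l q, (ih _).2 ⟨q, by simpa using hq, rfl⟩, rfl⟩

theorem or3_notMem_span_iff {m : ℕ} (l : List (Fin m → ℚ)) (z : Fin m → ℚ) :
    z ∉ Submodule.span ℚ {v | v ∈ l} ↔ ∃ ψ : Fin m → ℚ, (∀ v ∈ l, ∑ i, ψ i * v i = 0) ∧
      ∑ i, ψ i * z i ≠ 0 := by
  constructor
  · intro h
    obtain ⟨f, hf, hf'⟩ := Submodule.exists_le_ker_of_notMem h
    have key : ∀ v : Fin m → ℚ, ∑ i, f (Pi.single i 1) * v i = f v := by
      intro v
      rw [LinearMap.pi_apply_eq_sum_univ f v]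
      refine Finset.sum_congr rfl fun i _ => ?_
      rw [smul_eq_mul, mul_comm]
      congr 2
      funext j
      simp [Pi.single_apply, eq_comm]
    refine ⟨fun i => f (Pi.single i 1), fun v hv => ?_, ?_⟩
    · rw [key]; exact hf' (Submodule.subset_span hv)
    · rw [key]; exact hf
  · rintro ⟨ψ, h1, h2⟩ hz
    apply h2
    have : Submodule.span ℚ {v | v ∈ l} ≤
        LinearMap.ker (∑ i, ψ i • (LinearMap.proj i : (Fin m → ℚ) →ₗ[ℚ] ℚ)) := by
      rw [Submodule.span_le]
      intro v hv
      have := h1 v hv
      simpa using this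
    have := this hz
    simpa using this

/-- membership in the span of a variable list is decidable (both sides r.e.: coefficients;
a linear functional) -/
theorem cp_span {m : ℕ} :
    ComputablePred (fun p : List (Fin m → ℚ) × (Fin m → ℚ) =>
      p.2 ∈ Submodule.span ℚ {v | v ∈ p.1}) := by
  refine computable_of_re ?_ ?_
  · have h : REPred (fun p : List (Fin m → ℚ) × (Fin m → ℚ) =>
        ∃ q : List ℚ, q.length = p.1.length ∧ p.2 = lq p.1 q) := by
      refine re_exists (re_and (re_eq ?_ ?_) (re_eq ?_ ?_))
      · exact Computable.list_length.comp Computable.snd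
      · exact Computable.list_length.comp (Computable.fst.comp Computable.fst)
      · exact Computable.snd.comp Computable.fst
      · exact or3_pr_lq.to_comp.comp (Computable.fst.comp Computable.fst) Computable.snd
    exact h.of_eq (fun p => (or3_mem_span_iff _ _).symm)
  · have h : REPred (fun p : List (Fin m → ℚ) × (Fin m → ℚ) =>
        ∃ ψ : Fin m → ℚ, (∀ v ∈ p.1, ∑ i, ψ i * v i = 0) ∧ ∑ i, ψ i * p.2 i ≠ 0) := by
      refine re_exists (re_and ?_ (re_ne ?_ ?_))
      · refine re_forall_list (α := (List (Fin m → ℚ) × (Fin m → ℚ)) × (Fin m → ℚ))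
          (R := fun x v => ∑ i, x.2 i * v i = 0) (l := fun x => x.1.1) (re_eq ?_ ?_) ?_
        · exact c_sum fun i => c_qmul (c_app (Computable.snd.comp Computable.fst) i)
            (c_app Computable.snd i)
        · exact Computable.const _
        · exact Computable.fst.comp Computable.fst
      · exact c_sum fun i => c_qmul (c_app Computable.snd i)
          (c_app (Computable.snd.comp Computable.fst) i)
      · exact Computable.const _
    exact h.of_eq (fun p => (or3_notMem_span_iff _ _).symm)

theorem or3_lc_nil_right {W : Type*} [AddCommGroup W] (t : List W) : lc t [] = 0 := by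
  cases t <;> rfl

theorem or3_lc_replicate {W : Type*} [AddCommGroup W] (t : List W) (n : ℕ) :
    lc t (List.replicate n 0) = 0 := by
  induction t generalizing n with
  | nil => rfl
  | cons a t ih =>
    cases n with
    | zero => rfl
    | succ n => rw [List.replicate_succ, lc, ih, zero_smul, add_zero]

theorem or3_lc_add {W : Type*} [AddCommGroup W] (t : List W) (e e' : List ℤ)
    (h : e.length = t.length) (h' : e'.length = t.length) :
    lc t (List.zipWith (· + ·) e e') = lc t e + lc t e' := by
  induction t generalizing e e' with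
  | nil => simp [lc]
  | cons a t ih =>
    cases e with
    | nil => simp at h
    | cons x e =>
      cases e' with
      | nil => simp at h'
      | cons y e' =>
        rw [List.zipWith_cons_cons, lc, lc, lc, ih e e' (by simpa using h) (by simpa using h'),
          add_smul]
        abel

theorem or3_lc_neg {W : Type*} [AddCommGroup W] (t : List W) (e : List ℤ) :
    lc t (e.map fun x => -x) = - lc t e := by
  induction t generalizing e with
  | nil => simp [lc]
  | cons a t ih =>
    cases e with
    | nil => simp [lc]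
    | cons x e => rw [List.map_cons, lc, lc, ih, neg_smul]; abel

/-- integral combinations of a list modulo a subspace -/
def or3Lat {W : Type*} [AddCommGroup W] [Module ℚ W] (P : Submodule ℚ W) (t : List W) :
    AddSubgroup W where
  carrier := {x | ∃ e : List ℤ, e.length = t.length ∧ x - lc t e ∈ P}
  zero_mem' := ⟨List.replicate t.length 0, by simp, by rw [or3_lc_replicate]; simp⟩
  add_mem' := by
    rintro a b ⟨e, he, h⟩ ⟨e', he', h'⟩
    refine ⟨List.zipWith (· + ·) e e', by simp [he, he'], ?_⟩
    rw [or3_lc_add t e e' he he']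
    have := P.add_mem h h'
    convert this using 1
    abel
  neg_mem' := by
    rintro a ⟨e, he, h⟩
    refine ⟨e.map fun x => -x, by simp [he], ?_⟩
    rw [or3_lc_neg]
    have := P.neg_mem h
    convert this using 1
    abel

theorem or3_mem_lat {W : Type*} [AddCommGroup W] [Module ℚ W] (P : Submodule ℚ W) (t : List W)
    {v : W} (hv : v ∈ t) : v ∈ or3Lat P t := by
  induction t with
  | nil => simp at hv
  | cons a t ih =>
    rcases List.mem_cons.1 hv with rfl | hv
    · refine ⟨1 :: List.replicate t.length 0, by simp, ?_⟩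
      rw [lc, or3_lc_replicate]; simp
    · obtain ⟨e, he, h⟩ := ih hv
      refine ⟨0 :: e, by simp [he], ?_⟩
      rw [lc, zero_smul, zero_add]; exact h

theorem or3_lc_mem {W : Type*} [AddCommGroup W] [Module ℚ W] (P : Submodule ℚ W) (t : List W)
    (h : ∀ v ∈ t, v ∈ P) (e : List ℤ) : lc t e ∈ P := by
  induction t generalizing e with
  | nil => exact P.zero_mem
  | cons a t ih =>
    cases e with
    | nil => exact P.zero_mem
    | cons x e =>
      exact P.add_mem (P.smul_of_tower_mem x (h a List.mem_cons_self))
        (ih (fun v hv => h v (List.mem_cons_of_mem _ hv)) e)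

theorem or3_Ind_cons {W : Type*} [AddCommGroup W] [Module ℚ W] (l t : List W) (v : W) :
    Ind (fun z => z ∈ Submodule.span ℚ {v | v ∈ l}) (v :: t) ↔
      v ∉ Submodule.span ℚ {z | z ∈ l ++ t} ∧ Ind (fun z => z ∈ Submodule.span ℚ {v | v ∈ l}) t := by
  constructor
  · intro h
    refine ⟨fun hv => ?_, fun e he hP i hi => ?_⟩
    · set P := Submodule.span ℚ {z | z ∈ l} with hPdef
      have h1 : Submodule.span ℚ {z | z ∈ l ++ t} ≤
          Submodule.span ℚ (or3Lat P t : Set W) := by
        rw [Submodule.span_le]
        intro z hz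
        apply Submodule.subset_span
        rcases List.mem_append.1 hz with hz | hz
        · exact ⟨List.replicate t.length 0, by simp, by
            rw [or3_lc_replicate, sub_zero]; exact Submodule.subset_span hz⟩
        · exact or3_mem_lat P t hz
      obtain ⟨m, hm, e, he, h2⟩ := exists_nsmul_mem_of_span _ (h1 hv)
      have h3 := h ((m : ℤ) :: e.map fun x => -x) (by simp [he]) (by
        rw [lc, or3_lc_neg, natCast_zsmul, ← sub_eq_add_neg]; exact h2) (m : ℤ)
        List.mem_cons_self
      omega
    · exact h (0 :: e) (by simp [he]) (by rw [lc, zero_smul, zero_add]; exact hP) i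
        (List.mem_cons_of_mem _ hi)
  · rintro ⟨hv, h⟩ e he hP
    cases e with
    | nil => intro i hi; simp at hi
    | cons x e =>
      have he' : e.length = t.length := by simpa using he
      rw [lc] at hP
      by_cases hx : x = 0
      · subst hx
        rw [zero_smul, zero_add] at hP
        intro i hi
        rcases List.mem_cons.1 hi with rfl | hi
        · rfl
        · exact h e he' hP i hi
      · exfalso
        apply hv
        set Q := Submodule.span ℚ {z | z ∈ l ++ t} with hQ
        have h1 : x • v + lc t e ∈ Q := by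
          refine Submodule.span_mono ?_ hP
          intro z hz
          exact List.mem_append_left _ hz
        have h2 : lc t e ∈ Q := or3_lc_mem Q t
          (fun z hz => Submodule.subset_span (List.mem_append_right _ hz)) e
        have h3 : x • v ∈ Q := by
          have := Q.sub_mem h1 h2
          simpa using this
        have h4 := Q.smul_mem ((x : ℚ)⁻¹) h3
        rwa [← Int.cast_smul_eq_zsmul ℚ, smul_smul,
          inv_mul_cancel₀ (Int.cast_ne_zero.2 hx), one_smul] at h4

theorem or3_Ind_iff {W : Type*} [AddCommGroup W] [Module ℚ W] (l vs : List W) :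
    Ind (fun z => z ∈ Submodule.span ℚ {v | v ∈ l}) vs ↔
      ∀ i ∈ List.range vs.length,
        vs.getD i 0 ∉ Submodule.span ℚ {z | z ∈ l ++ vs.drop (i + 1)} := by
  induction vs with
  | nil =>
    constructor
    · intro _ i hi; simp at hi
    · intro _ e he _ i hi
      rw [List.length_nil, List.length_eq_zero_iff] at he
      rw [he] at hi; simp at hi
  | cons v t ih =>
    rw [or3_Ind_cons, ih]
    constructor
    · rintro ⟨h1, h2⟩ i hi
      cases i with
      | zero => simpa using h1
      | succ i =>
        have := h2 i (by rw [List.mem_range] at hi ⊢; simpa using hi)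
        simpa using this
    · intro h
      refine ⟨?_, fun i hi => ?_⟩
      · have := h 0 (by simp)
        simpa using this
      · have := h (i + 1) (by rw [List.mem_range] at hi ⊢; simpa using hi)
        simpa using this

/-- the function of `cp_Ind_span` -/
def or3F {m : ℕ} (x : (List (Fin m → ℚ) × List (Fin m → ℚ)) × ℕ) :
    List (Fin m → ℚ) × (Fin m → ℚ) := (x.1.1 ++ x.1.2.drop (x.2 + 1), x.1.2.getD x.2 0)

theorem or3F_computable {m : ℕ} : Computable (or3F (m := m)) := by
  apply Primrec.to_comp
  refine Primrec.pair ?_ ?_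
  · exact Primrec.list_append.comp (Primrec.fst.comp Primrec.fst)
      (Primrec.list_drop.comp (Primrec.succ.comp Primrec.snd) (Primrec.snd.comp Primrec.fst))
  · exact (Primrec.list_getD 0).comp (Primrec.snd.comp Primrec.fst) Primrec.snd

/-- the predicate of `cp_span` -/
def or3P {m : ℕ} (p : List (Fin m → ℚ) × (Fin m → ℚ)) : Prop :=
  p.2 ∈ Submodule.span ℚ {v | v ∈ p.1}

theorem or3P_cp {m : ℕ} : ComputablePred (or3P (m := m)) := cp_span

theorem or3_Ind_iff' {m : ℕ} (p : List (Fin m → ℚ) × List (Fin m → ℚ)) :
    (∀ i ∈ List.range p.2.length, ¬ or3P (or3F (p, i))) ↔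
      Ind (fun v => v ∈ Submodule.span ℚ {v | v ∈ p.1}) p.2 := by
  rw [or3_Ind_iff p.1 p.2]
  exact Iff.rfl

/-- integral independence of a variable list modulo the span of another one is decidable -/
theorem cp_Ind_span {m : ℕ} :
    ComputablePred (fun p : List (Fin m → ℚ) × List (Fin m → ℚ) =>
      Ind (fun v => v ∈ Submodule.span ℚ {v | v ∈ p.1}) p.2) := by
  refine computable_of_re ?_ ?_
  · have h0 : REPred (fun x : (List (Fin m → ℚ) × List (Fin m → ℚ)) × ℕ => ¬ or3P (or3F x)) :=
      re_comp or3P_cp.not.to_re or3F_computable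
    have h : REPred (fun p : List (Fin m → ℚ) × List (Fin m → ℚ) =>
        ∀ i ∈ List.range p.2.length, ¬ or3P (or3F (p, i))) :=
      re_forall_list (R := fun (p : List (Fin m → ℚ) × List (Fin m → ℚ)) (i : ℕ) =>
        ¬ or3P (or3F (p, i))) h0
        (Primrec.list_range.comp (Primrec.list_length.comp Primrec.snd)).to_comp
    exact h.of_eq or3_Ind_iff'
  · have h0 : REPred (fun x : (List (Fin m → ℚ) × List (Fin m → ℚ)) × ℕ => or3P (or3F x)) :=
      re_comp or3P_cp.to_re or3F_computable
    have h : REPred (fun p : List (Fin m → ℚ) × List (Fin m → ℚ) =>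
        ∃ i : ℕ, i < p.2.length ∧ or3P (or3F (p, i))) := by
      refine re_exists (R := fun (p : List (Fin m → ℚ) × List (Fin m → ℚ)) (i : ℕ) =>
        i < p.2.length ∧ or3P (or3F (p, i))) (re_and ?_ h0)
      have h1 : PrimrecPred (fun x : (List (Fin m → ℚ) × List (Fin m → ℚ)) × ℕ =>
          x.2 < x.1.2.length) :=
        Primrec.nat_lt.comp Primrec.snd (Primrec.list_length.comp (Primrec.snd.comp Primrec.fst))
      exact h1.computablePred.to_re
    refine h.of_eq (fun p => ?_)
    rw [← or3_Ind_iff' p]
    push Not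
    simp only [List.mem_range]

end or3

end Pool.Agent.CP
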